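import Pool.Agent.Q64.GL.Stm

/-!
# Project GL: HAR, Poisson integrals are smooth and harmonic
-/

set_option autoImplicit false

namespace Pool.Agent.Q111.GL

open MeasureTheory Set Filter Topology Pool.Agent.Q64.GL

lemma hd_x (z y : ℝ) : HasDerivAt (fun s : ℝ => (⟨s, y⟩ : ℂ)) 1 z := by
  have h : (fun s : ℝ => (⟨s, y⟩ : ℂ)) = fun s : ℝ => (s : ℂ) + y * Complex.I :=
    funext fun s => Complex.mk_eq_add_mul_I s y
  rw [h]
  exact ((hasDerivAt_id z).ofReal_comp).add_const _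

lemma hd_y (z y : ℝ) : HasDerivAt (fun t : ℝ => (⟨z, t⟩ : ℂ)) Complex.I y := by
  have h : (fun t : ℝ => (⟨z, t⟩ : ℂ)) = fun t : ℝ => (z : ℂ) + t * Complex.I :=
    funext fun t => Complex.mk_eq_add_mul_I z t
  rw [h]
  have h1 := (((hasDerivAt_id y).ofReal_comp).mul_const Complex.I).const_add (z : ℂ)
  have h2 : (((1 : ℝ) : ℂ)) * Complex.I = Complex.I := by simp
  rw [h2] at h1
  exact h1

lemma isOpen_H : IsOpen {ζ : ℂ | 0 < ζ.im} := isOpen_lt continuous_const Complex.continuous_im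

theorem t_HAR (hP : Pool.Agent.Q64.GL.S_POI) : Pool.Agent.Q64.GL.S_HAR := by
  intro f hf
  obtain ⟨G, hG, h1, h2⟩ := hP f hf
  have hG' : DifferentiableOn ℂ (deriv G) {ζ : ℂ | 0 < ζ.im} := hG.deriv isOpen_H
  refine ⟨?_, fun z y hy => ?_⟩
  · have e1 : ContDiffOn ℂ 2 G {ζ : ℂ | 0 < ζ.im} := hG.contDiffOn isOpen_H
    have e2 : ContDiffOn ℝ 2 G {ζ : ℂ | 0 < ζ.im} := e1.restrict_scalars ℝ
    have e3 : ContDiffOn ℝ 2 (fun q : ℝ × ℝ => G (Complex.equivRealProdCLM.symm q)) HP := by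
      refine e2.comp (Complex.equivRealProdCLM.symm.contDiff.contDiffOn) fun q hq => ?_
      exact hq
    have e4 : ContDiffOn ℝ 2 (fun q : ℝ × ℝ => Complex.imCLM (G (Complex.equivRealProdCLM.symm q))) HP :=
      Complex.imCLM.contDiff.comp_contDiffOn e3
    refine e4.congr fun q hq => ?_
    have e5 : Complex.equivRealProdCLM.symm q = (⟨q.1, q.2⟩ : ℂ) := rfl
    rw [e5, h1 q.1 q.2 hq]
    rfl
  · have hz : ∀ s t : ℝ, 0 < t → HasDerivAt (deriv G) (deriv (deriv G) ⟨s, t⟩) (⟨s, t⟩ : ℂ) :=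
      fun s t ht => ((hG' ⟨s, t⟩ ht).differentiableAt (isOpen_H.mem_nhds ht)).hasDerivAt
    have a1 : deriv (fun s => poisson f s y) = fun s => (deriv G ⟨s, y⟩).im :=
      funext fun s => (h2 s y hy).1.deriv
    have a2 : HasDerivAt (fun s : ℝ => (deriv G ⟨s, y⟩).im) (deriv (deriv G) ⟨z, y⟩).im z := by
      have b1 := (hz z y hy).comp z (hd_x z y)
      rw [mul_one] at b1
      exact Complex.imCLM.hasFDerivAt.comp_hasDerivAt z b1
    have a3 : dzz (fun q => poisson f q.1 q.2) z y = (deriv (deriv G) ⟨z, y⟩).im := by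
      unfold dzz
      change deriv (deriv (fun s => poisson f s y)) z = _
      rw [a1]
      exact a2.deriv
    have a4 : deriv (fun t => poisson f z t) =ᶠ[𝓝 y] fun t => (deriv G ⟨z, t⟩).re := by
      filter_upwards [isOpen_Ioi.mem_nhds (show y ∈ Ioi (0 : ℝ) from hy)] with t ht
      exact (h2 z t ht).2.1.deriv
    have a5 : HasDerivAt (fun t : ℝ => (deriv G ⟨z, t⟩).re) (-(deriv (deriv G) ⟨z, y⟩).im) y := by
      have b1 := (hz z y hy).comp y (hd_y z y)
      have b2 := Complex.reCLM.hasFDerivAt.comp_hasDerivAt y b1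
      have b3 : Complex.reCLM (deriv (deriv G) ⟨z, y⟩ * Complex.I) = -(deriv (deriv G) ⟨z, y⟩).im := by
        simp
      rw [b3] at b2
      exact b2
    have a6 : dyy (fun q => poisson f q.1 q.2) z y = -(deriv (deriv G) ⟨z, y⟩).im := by
      unfold dyy
      change deriv (deriv (fun t => poisson f z t)) y = _
      rw [a4.deriv_eq]
      exact a5.deriv
    rw [a3, a6]
    ring

end Pool.Agent.Q111.GL
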